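import Pool.Agent.X328.CF.D4Sub

/-!
# Cubic fourfolds with a lattice `D₄(2)` of primitive Hodge classes

Let `X` be a smooth cubic fourfold such that the lattice of the Hodge classes in `H^4(X, ℤ)` which are
orthogonal to `h` contains a lattice `D₄(2)` (this is a condition of codimension four on `X`). The
following is proved.

1. `X` is in the Hassett divisor `C_d` for some admissible `d` (has an associated K3 surface) if and
   only if it is in some `C_d` such that `4` does not divide `d`, if and only if there is a Hodge class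
   `v` such that `4` does not divide `disc v`: the conditions on `9` and on the prime numbers
   `p ≡ 2 mod 3` can be omitted.
2. If `X` is in `C_d`, `d ≤ 42` and `4` does not divide `d`, then `X` is rational, and in `C_d'` for an
   admissible `d'`. The new cases are `d = 18` and `d = 30`.
3. If `v` is a Hodge class which has an odd product with some element of the lattice `D₄(2)`, then
   `X` is in `C_d` for all squarefree `d ≥ disc v` with `d ≡ disc v mod 6`, and in `C_d'` for an
   admissible `d'`, and `X` is rational if `disc v ≤ 42`.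

The condition is satisfied, so that 1. and 2. hold, if `X` has an Eckardt point (an involution which
fixes a point and a hyperplane), and if `X` contains planes `P`, `Q_1`, `Q_2`, `Q_3`, `Q_4` such that
`Q_i` meets `P` in a line and `Q_i ∩ Q_j` is a point for all `i ≠ j` (this means that four fibres of the
quadric fibration defined by `P` are pairs of planes).

So the conjecture of the problem (rational if and only if in `C_d` for an admissible `d`) holds
for these cubic fourfolds if they are in some `C_d` with `d ≤ 42` and `4 ∤ d`. Known facts which are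
used (the hypotheses of the theorem): the properties of `H^4(X, ℤ)` collected in
`H4.IsCohomology`; the rationality of the cubic fourfolds in `C_14` (Bolognesi, Russo, Staglianò),
`C_26`, `C_38` and `C_42` (Russo, Staglianò); for Eckardt points, the description of the classes which
are fixed by the involution (Laza, Pearlstein, Zhang; Marquand); for planes, the known
intersection numbers.

Idea of the proof. Let `v` be a Hodge class. The discriminants of the classes `v + s`, where `s` is in
`D₄(2)`, are the numbers `disc v + (3 / 8) (|y + 4 x| ^ 2 - |y| ^ 2)`, where `x` is a vector in `ℤ^4` with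
an even sum of coordinates and the vector `y` is given by the products of `v` with the lattice. By
theorems on sums of four squares and of four triangular numbers (one has to take care of the
parities of the squares and of the sum of `x`) they contain a progression with difference `6`, or `12`
if all products are even. The progression starts at `disc v`.
-/

set_option autoImplicit false

namespace Pool.Agent.Results.MP_ffd2c1_ag.EckardtPointsAndFivePlanes

open Pool.Agent.Y95.Q

/-- The classes `s i` are Hodge classes which are orthogonal to `h`, and their matrix of products is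
`2 C`. -/
structure Spans {X : CubicFourfold} (H : H4 X) {n : ℕ} (C : Matrix (Fin n) (Fin n) ℤ)
    (s : Fin n → Fin 23 → ℤ) : Prop where
  hodge : ∀ i, H.IsHodge (s i)
  primitive : ∀ i, H.ip (s i) H.h = 0
  gram : ∀ i j, H.ip (s i) (s j) = 2 * C i j

/-- An involution of the cubic fourfold `F = 0` which fixes a point of the projective space and a
hyperplane (the point is an Eckardt point of the cubic fourfold): a linear map with the square `1`
which preserves `F` and whose eigenspace for the eigenvalue `-1` has the dimension one. -/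
structure EckardtInvolution (X : CubicFourfold) where
  /-- the linear map -/
  g : (Fin 6 → ℂ) →ₗ[ℂ] (Fin 6 → ℂ)
  square : ∀ x, g (g x) = x
  preserves : ∀ x, MvPolynomial.eval (g x) X.F = MvPolynomial.eval x X.F
  one : Module.finrank ℂ (LinearMap.ker (g + LinearMap.id)) = 1

/-- The known properties of the action `ι` of the involution on `H^4(X, ℤ)`: it is an isometric
involution and fixes `h`; the classes `v` with `ι v = v` are Hodge classes; those which are
orthogonal to `h` form a lattice with a basis whose matrix of products is `2` times the Cartan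
matrix of type `E₆`. -/
structure ActsBy {X : CubicFourfold} (H : H4 X) (_ : EckardtInvolution X)
    (ι : (Fin 23 → ℤ) →+ (Fin 23 → ℤ)) : Prop where
  square : ∀ v, ι (ι v) = v
  isometry : ∀ v w, H.ip (ι v) (ι w) = H.ip v w
  fixes_h : ι H.h = H.h
  hodge : ∀ v, ι v = v → H.IsHodge v
  lattice : ∃ s : Fin 6 → Fin 23 → ℤ, (∀ i j, H.ip (s i) (s j) = 2 * CartanMatrix.E₆ i j) ∧
    ∀ v, ι v = v ∧ H.ip v H.h = 0 ↔ ∃ c : Fin 6 → ℤ, v = ∑ i, c i • s i

/-- The dimension of the linear subspace which belongs to the intersection of two planes: it is `2` if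
they meet in a line, `1` if they meet in a point, and `0` if they are disjoint. -/
noncomputable def meetDim {X : CubicFourfold} (P Q : X.Plane) : ℕ :=
  Module.finrank ℂ (P.1 ⊓ Q.1 : Submodule ℂ (Fin 6 → ℂ))

/-- The known intersection numbers of planes: `-1` for two planes which meet in a line, `1` for two
planes which meet in a point. -/
def IntersectionNumbers {X : CubicFourfold} (H : H4 X) : Prop :=
  ∀ P Q : X.Plane, (meetDim P Q = 2 → H.ip (H.cl P) (H.cl Q) = -1) ∧
    (meetDim P Q = 1 → H.ip (H.cl P) (H.cl Q) = 1)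

/-- Planes `P`, `Q_1`, `Q_2`, `Q_3`, `Q_4` in `X` such that `Q_i` meets `P` in a line, and `Q_i` and `Q_j`
meet in a point, for all `i ≠ j`. -/
structure FivePlanes (X : CubicFourfold) where
  /-- the plane `P` -/
  P : X.Plane
  /-- the planes `Q_i` -/
  Q : Fin 4 → X.Plane
  line : ∀ i, meetDim P (Q i) = 2
  point : ∀ i j, i ≠ j → meetDim (Q i) (Q j) = 1

/-- `X` is in the Hassett divisor `C_d`: there is a Hodge class `v` such that `h` and `v` span a
saturated group of discriminant `d`. -/
def InDivisor {X : CubicFourfold} (H : H4 X) (d : ℤ) : Prop :=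
  ∃ v, H.IsHodge v ∧ H.Saturated v ∧ H.disc v = d

/-- The known rationality of the cubic fourfolds in `C_14`, `C_26`, `C_38` and `C_42`. -/
def KnownRational {X : CubicFourfold} (H : H4 X) : Prop :=
  ∀ d : ℤ, (d = 14 ∨ d = 26 ∨ d = 38 ∨ d = 42) → InDivisor H d → X.IsRational

/-- The first two statements: associated K3 surfaces, and rationality for `d ≤ 42`. -/
def Criterion {X : CubicFourfold} (H : H4 X) : Prop :=
  ((∃ d, Admissible d ∧ InDivisor H d) ↔ ∃ d, ¬ 4 ∣ d ∧ InDivisor H d) ∧
    ((∃ d, Admissible d ∧ InDivisor H d) ↔ ∃ v, H.IsHodge v ∧ ¬ 4 ∣ H.disc v) ∧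
    ∀ d ≤ 42, ¬ 4 ∣ d → InDivisor H d → X.IsRational ∧ ∃ d', Admissible d' ∧ InDivisor H d'

/-- The third statement, for the Hodge class `v`. -/
def Progression {X : CubicFourfold} (H : H4 X) (v : Fin 23 → ℤ) : Prop :=
  (∀ d, Squarefree d → H.disc v ≤ d → 6 ∣ d - H.disc v → InDivisor H d) ∧
    (∃ d', Admissible d' ∧ InDivisor H d') ∧ (H.disc v ≤ 42 → X.IsRational)

/-- **Cubic fourfolds with primitive Hodge classes which form a lattice `D₄(2)`**, in particular
with an Eckardt point, or with four reducible fibres of the quadric fibration defined by a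
plane. -/
theorem result {X : CubicFourfold} {H : H4 X} (hH : H.IsCohomology) (hR : KnownRational H) :
    (∀ s, Spans H (CartanMatrix.D 4) s → Criterion H ∧
      ∀ v, H.IsHodge v → (∃ i, Odd (H.ip v (s i))) → Progression H v) ∧
    (∀ (σ : EckardtInvolution X) (ι : (Fin 23 → ℤ) →+ (Fin 23 → ℤ)), ActsBy H σ ι →
      Criterion H) ∧
    (IntersectionNumbers H → ∀ _ : FivePlanes X, Criterion H) := by
  have conv : ∀ {n : ℕ} {C : Matrix (Fin n) (Fin n) ℤ} {s : Fin n → Fin 23 → ℤ}, Spans H C s →
      Pool.Agent.X328.CF.D4.Spans H C s := fun h => ⟨h.hodge, h.primitive, h.gram⟩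
  have k3 : ∀ s, Pool.Agent.X328.CF.D4.IsD4 H s → ∀ v, H.IsHodge v → ¬ 4 ∣ H.disc v →
      ∃ d', Admissible d' ∧ InDivisor H d' := fun s hs v hv h4 =>
    Pool.Agent.X328.CF.D4.hasK3 hH hs hv h4
  have prog : ∀ s, Pool.Agent.X328.CF.D4.IsD4 H s → ∀ v, H.IsHodge v →
      (∃ i, Odd (H.ip v (s i))) → Progression H v := by
    intro s hs v hv ho
    refine ⟨fun d hsq hd h6 => Pool.Agent.X328.CF.D4.key hH hs hv ho d hsq hd h6, ?_,
      fun h42 => ?_⟩
    · obtain ⟨w, hw, h4⟩ := Pool.Agent.X328.CF.D4.exists_not_four hH hs hv ho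
      exact k3 s hs w hw h4
    · obtain ⟨d, hd, hdd⟩ := Pool.Agent.X328.CF.D4.small_odd hH hs hv ho h42
      exact hR d (by tauto) hdd
  have crit : ∀ s, Pool.Agent.X328.CF.D4.IsD4 H s → Criterion H := by
    intro s hs
    refine ⟨⟨?_, ?_⟩, ⟨?_, ?_⟩, ?_⟩
    · rintro ⟨d, hA, hd⟩
      exact ⟨d, hA.2.1, hd⟩
    · rintro ⟨d, h4, v, hv, -, rfl⟩
      exact k3 s hs v hv h4
    · rintro ⟨d, hA, v, hv, -, rfl⟩
      exact ⟨v, hv, hA.2.1⟩
    · rintro ⟨v, hv, h4⟩
      exact k3 s hs v hv h4
    · rintro d h42 h4 ⟨v, hv, hsat, rfl⟩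
      obtain ⟨d, hd, hdd⟩ := Pool.Agent.X328.CF.D4.small hH hs hv hsat h42 h4
      exact ⟨hR d hd hdd, k3 s hs v hv h4⟩
  refine ⟨fun s hs => ⟨crit s (conv hs), fun v hv ho => prog s (conv hs) v hv ho⟩, ?_, ?_⟩
  · intro σ ι hι
    obtain ⟨s, hs, hspan⟩ := hι.lattice
    have hsn : ∀ i, ι (s i) = s i ∧ H.ip (s i) H.h = 0 := fun i => (hspan _).2
      ⟨Pi.single i 1, by
        rw [Finset.sum_eq_single i]
        · rw [Pi.single_eq_same, one_smul]
        · intro j _ hj
          rw [Pi.single_eq_of_ne hj, zero_smul]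
        · intro h
          exact absurd (Finset.mem_univ _) h⟩
    have h6 : Pool.Agent.X328.CF.D4.Spans H CartanMatrix.E₆ s :=
      ⟨fun i => hι.hodge _ (hsn i).1, fun i => (hsn i).2, hs⟩
    exact crit _ (h6.sub _ Pool.Agent.X328.CF.D4.m6_eq)
  · rintro hI ⟨P, Q, hPQ, hQQ⟩
    have hd : ∀ i, H.IsHodge (H.cl (Q i)) ∧ H.ip (H.cl (Q i)) H.h = 1 ∧
        H.ip (H.cl (Q i)) (H.cl (Q i)) = 3 := fun i => (hH.cl_range _).1 ⟨_, rfl⟩
    have hP : H.IsHodge (H.cl P) ∧ H.ip (H.cl P) H.h = 1 ∧ H.ip (H.cl P) (H.cl P) = 3 :=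
      (hH.cl_range _).1 ⟨_, rfl⟩
    have h1 : ∀ i, H.ip (H.cl P) (H.cl (Q i)) = -1 := fun i => (hI P (Q i)).1 (hPQ i)
    have h1' : ∀ i, H.ip (H.cl (Q i)) (H.cl P) = -1 := fun i => by rw [hH.comm, h1]
    have h2 : ∀ i j, i ≠ j → H.ip (H.cl (Q i)) (H.cl (Q j)) = 1 := fun i j hij =>
      (hI (Q i) (Q j)).2 (hQQ i j hij)
    have h3 : ∀ i, H.ip H.h (H.cl (Q i)) = 1 := fun i => by rw [hH.comm, (hd i).2.1]
    have h3' : H.ip H.h (H.cl P) = 1 := by rw [hH.comm, hP.2.1]
    have e01 := h2 0 1 (by decide)
    have e02 := h2 0 2 (by decide)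
    have e03 := h2 0 3 (by decide)
    have e12 := h2 1 2 (by decide)
    have e13 := h2 1 3 (by decide)
    have e23 := h2 2 3 (by decide)
    have e10 := h2 1 0 (by decide)
    have e20 := h2 2 0 (by decide)
    have e30 := h2 3 0 (by decide)
    have e21 := h2 2 1 (by decide)
    have e31 := h2 3 1 (by decide)
    have e32 := h2 3 2 (by decide)
    have hD : CartanMatrix.D 4 = !![2, -1, 0, 0; -1, 2, -1, -1; 0, -1, 2, 0; 0, -1, 0, 2] := by
      decide
    refine crit ![H.cl (Q 0) - H.cl (Q 1), H.cl (Q 1) - H.cl (Q 2), H.cl (Q 2) - H.cl (Q 3),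
      H.cl (Q 2) + H.cl (Q 3) + H.cl P - H.h] ⟨fun i => ?_, fun i => ?_, fun i j => ?_⟩
    · fin_cases i
      · exact H.isHodge_sub (hd 0).1 (hd 1).1
      · exact H.isHodge_sub (hd 1).1 (hd 2).1
      · exact H.isHodge_sub (hd 2).1 (hd 3).1
      · exact H.isHodge_sub (H.isHodge_add (H.isHodge_add (hd 2).1 (hd 3).1) hP.1) hH.h_hodge
    · fin_cases i
      · show H.ip (H.cl (Q 0) - H.cl (Q 1)) H.h = 0
        rw [H.ip_sub_left, (hd 0).2.1, (hd 1).2.1]
        norm_num
      · show H.ip (H.cl (Q 1) - H.cl (Q 2)) H.h = 0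
        rw [H.ip_sub_left, (hd 1).2.1, (hd 2).2.1]
        norm_num
      · show H.ip (H.cl (Q 2) - H.cl (Q 3)) H.h = 0
        rw [H.ip_sub_left, (hd 2).2.1, (hd 3).2.1]
        norm_num
      · show H.ip (H.cl (Q 2) + H.cl (Q 3) + H.cl P - H.h) H.h = 0
        rw [H.ip_sub_left, H.ip_add_left, H.ip_add_left, (hd 2).2.1, (hd 3).2.1, hP.2.1,
          hH.h_self]
        norm_num
    · rw [hD]
      fin_cases i <;> fin_cases j <;>
        simp [H.ip_sub_left, H.ip_sub_right, H.ip_add_left, H.ip_add_right, h1, h1', h3, h3',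
          e01, e02, e03, e12, e13, e23, e10, e20, e30, e21, e31, e32, (hd _).2.1, (hd _).2.2, hP.2.1,
          hP.2.2, hH.h_self]

end Pool.Agent.Results.MP_ffd2c1_ag.EckardtPointsAndFivePlanes
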