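import Pool.Agent.X328.CF.LocGlob

/-!
# A local-global principle for K3 surfaces associated to cubic fourfolds

Let `X` be a smooth cubic fourfold. The condition in the conjecture of the problem, the existence of
an associated K3 surface, means that `X` is in the Hassett divisor `C_d` for some admissible number
`d`: an even number `d > 6` which is not divisible by `4`, `9` or an odd prime number `p ≡ 2 mod 3`.
The following is proved.

1. `X` has an associated K3 surface if and only if the following local conditions hold: for
   `p = 2` and for every prime number `p ≡ 2 mod 3` the conditions on `d` at `p` are satisfied by the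
   discriminant of some Hodge class `v_p`, and there is a Hodge class `v_3` with `disc v_3 ≡ 2 mod 3` or
   `disc v_3 ≡ 6 mod 9`. The classes `v_p` may depend on `p`. (There is no condition at the prime
   numbers `p ≡ 1 mod 3`.)
2. If `X` is in `C_d₁` and in `C_d₂`, and the greatest common divisor of `d₁` and `d₂` is `2`, then `X` has an
   associated K3 surface.

If the lattice of Hodge classes has rank at most two, 1. is elementary and 2. is empty. Known facts which are used (the hypotheses of the theorem): the properties of `H^4(X, ℤ)`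
collected in `H4.IsCohomology`, and the theorem of Meyer on prime numbers in arithmetic
progressions which are represented by binary quadratic forms.

Idea of the proof. The discriminants of the Hodge classes are the values of a positive definite
quadratic form `2 G g`, where `g` is primitive; by the local conditions the prime factors of `G` are
`≡ 1 mod 3`, except perhaps for one factor `3`. There is a class `u` with `g(u) ≡ 1 mod 3`, and a class
`z`, independent of `u`, such that `g(z)` is prime to `g(u)`. The restriction of `g` to the lattice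
spanned by `u` and `z` is primitive, and it represents a number which is `1` modulo `3` and prime to
its discriminant. By the theorem of Meyer it represents a large prime number `q ≡ 1 mod 3`, and `2 G q`
is admissible.
-/

set_option autoImplicit false

namespace Pool.Agent.Results.MP_ffd2c1_ag.LocalGlobalPrinciple

open Pool.Agent.Y95.Q

/-- `X` is in the Hassett divisor `C_d`: there is a Hodge class `v` such that `h` and `v` span a
saturated group of discriminant `d`. -/
def InDivisor {X : CubicFourfold} (H : H4 X) (d : ℤ) : Prop :=
  ∃ v, H.IsHodge v ∧ H.Saturated v ∧ H.disc v = d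

/-- `X` is in a Hassett divisor `C_d` with an admissible `d`. By a theorem of Hassett this means that
there are a polarised K3 surface `(S, H)` and a primitive isometric embedding of Hodge structures of
`H^2(S, ℤ)_pr` in `H^4(X, ℤ)_pr`. -/
def AssociatedK3 {X : CubicFourfold} (H : H4 X) : Prop := ∃ d, Admissible d ∧ InDivisor H d

/-- The theorem of Meyer: a primitive positive definite binary quadratic form which represents an
integer `n` which is prime to the modulus `m` and to the discriminant represents infinitely many
prime numbers in the residue class of `n` modulo `m`. -/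
def Meyer : Prop :=
  ∀ a b c m x y : ℤ, 0 < a → b ^ 2 < 4 * a * c → (∀ k : ℤ, k ∣ a → k ∣ b → k ∣ c → IsUnit k) →
    m ≠ 0 → IsCoprime (a * x ^ 2 + b * x * y + c * y ^ 2) (m * (b ^ 2 - 4 * a * c)) →
    ∀ N : ℕ, ∃ q : ℕ, q.Prime ∧ N < q ∧
      (∃ u v : ℤ, (q : ℤ) = a * u ^ 2 + b * u * v + c * v ^ 2) ∧
      m ∣ (q : ℤ) - (a * x ^ 2 + b * x * y + c * y ^ 2)

/-- The local conditions. -/
structure LocallyAdmissible {X : CubicFourfold} (H : H4 X) : Prop where
  at_two : ∃ v, H.IsHodge v ∧ ¬ 4 ∣ H.disc v
  at_three : ∃ v, H.IsHodge v ∧ (H.disc v % 3 = 2 ∨ H.disc v % 9 = 6)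
  at_prime : ∀ p : ℕ, p.Prime → p % 3 = 2 → p ≠ 2 → ∃ v, H.IsHodge v ∧ ¬ (p : ℤ) ∣ H.disc v

/-- **The local-global principle for associated K3 surfaces.** -/
theorem result {X : CubicFourfold} {H : H4 X} (hH : H.IsCohomology) (hM : Meyer) :
    (AssociatedK3 H ↔ LocallyAdmissible H) ∧
    ∀ d₁ d₂ : ℤ, InDivisor H d₁ → InDivisor H d₂ → Int.gcd d₁ d₂ = 2 → AssociatedK3 H := by
  refine ⟨⟨?_, fun hL => ?_⟩, ?_⟩
  · rintro ⟨d, ⟨hd6, hd4, hd9, hdp⟩, u, hu, -, rfl⟩
    refine ⟨⟨u, hu, hd4⟩, ⟨u, hu, ?_⟩, fun p hp hp3 hp2 =>
      ⟨u, hu, fun h => hdp p hp hp2 h hp3⟩⟩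
    have h2 := Pool.Agent.X328.CF.disc_even hH u
    rcases Pool.Agent.X328.CF.disc_mod_three (H := H) u with h3 | h3
    · right
      obtain ⟨m, hm⟩ : ∃ m, H.disc u = 6 * m := ⟨H.disc u / 6, by omega⟩
      have hm0 : 0 < m := by omega
      have hmn : (m.toNat : ℤ) = m := Int.toNat_of_nonneg hm0.le
      have h1 := Pool.Agent.X328.CF.Small.mod_three_of_primes m.toNat (by omega) (by
        intro p hp hpm
        have hpm' : (p : ℤ) ∣ m := by
          rw [← hmn]
          exact_mod_cast hpm
        have hp2 : p ≠ 2 := by
          rintro rfl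
          obtain ⟨e, he⟩ := hpm'
          exact hd4 ⟨3 * e, by rw [hm, he]; push_cast; ring⟩
        have hp3 : p ≠ 3 := by
          rintro rfl
          obtain ⟨e, he⟩ := hpm'
          exact hd9 ⟨2 * e, by rw [hm, he]; push_cast; ring⟩
        have h2 := hdp p hp hp2 (by rw [hm]; exact hpm'.mul_left 6)
        have h3 : ¬ 3 ∣ p := fun hd =>
          hp3 ((Nat.prime_dvd_prime_iff_eq Nat.prime_three hp).1 hd).symm
        omega)
      omega
    · exact Or.inl h3
  · by_cases hrank : ∃ v w, H.IsHodge v ∧ H.IsHodge w ∧
        H.disc v * H.disc w - Pool.Agent.X328.CF.Small.bl H v w ^ 2 ≠ 0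
    · exact Pool.Agent.X328.CF.LocGlob.main hH hM hrank hL.at_two hL.at_three hL.at_prime
    · push Not at hrank
      exact Pool.Agent.X328.CF.LocGlob.main_small hH hrank hL.at_two hL.at_three hL.at_prime
  · rintro d₁ d₂ ⟨v, hv, hsat, rfl⟩ ⟨w, hw, -, rfl⟩ hgcd
    have hne0 : H.disc v ≠ 0 ∨ H.disc w ≠ 0 := by
      by_contra hcon
      push Not at hcon
      rw [hcon.1, hcon.2] at hgcd
      norm_num at hgcd
    have hdv : ∀ k : ℤ, k ∣ H.disc v → k ∣ H.disc w → k ∣ 2 := by
      intro k h1 h2
      have := Int.dvd_coe_gcd h1 h2
      rw [hgcd] at this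
      exact_mod_cast this
    have hv0 := Pool.Agent.X328.CF.disc_nonneg hH hv
    have hw0 := Pool.Agent.X328.CF.disc_nonneg hH hw
    have hv2 := Pool.Agent.X328.CF.disc_even hH v
    have hw2 := Pool.Agent.X328.CF.disc_even hH w
    have hv3 := Pool.Agent.X328.CF.disc_mod_three (H := H) v
    have hw3 := Pool.Agent.X328.CF.disc_mod_three (H := H) w
    -- the discriminants are positive
    have hvp : 0 < H.disc v := by
      by_contra hcon
      have h1 : H.disc v = 0 := by omega
      have h2 := hdv (H.disc w) (by rw [h1]; exact dvd_zero _) dvd_rfl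
      have h3 := hH.six_lt hw (by
        rcases hne0 with h | h
        · exact absurd h1 h
        · omega)
      have := Int.le_of_dvd (by norm_num) h2
      omega
    have hwp : 0 < H.disc w := by
      by_contra hcon
      have h1 : H.disc w = 0 := by omega
      have h2 := hdv (H.disc v) dvd_rfl (by rw [h1]; exact dvd_zero _)
      have h3 := hH.six_lt hv hvp
      have := Int.le_of_dvd (by norm_num) h2
      omega
    have hv6 := hH.six_lt hv hvp
    refine Pool.Agent.X328.CF.LocGlob.main hH hM ⟨v, w, hv, hw, fun h0 => ?_⟩ ?_ ?_ ?_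
    · -- the classes are independent
      obtain ⟨b', h1⟩ := Pool.Agent.X328.CF.LocGlob.disc_of_det hH hv hsat hw hvp.ne' h0
      have h2 := hdv (H.disc v) dvd_rfl ⟨b' ^ 2, by rw [h1]; ring⟩
      have := Int.le_of_dvd (by norm_num) h2
      omega
    · by_contra hcon
      push Not at hcon
      have := hdv 4 (hcon v hv) (hcon w hw)
      omega
    · by_contra hcon
      push Not at hcon
      have h1 := (hcon v hv).1
      have h2 := (hcon w hw).1
      have := hdv 3 (by omega) (by omega)
      omega
    · intro p hp hp3 hp2
      by_contra hcon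
      push Not at hcon
      have h1 := hdv p (hcon v hv) (hcon w hw)
      have h2 : p ∣ 2 := by exact_mod_cast h1
      exact hp2 ((Nat.prime_dvd_prime_iff_eq hp Nat.prime_two).1 h2)

end Pool.Agent.Results.MP_ffd2c1_ag.LocalGlobalPrinciple
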